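import Pool.Agent.H46.CH.LT

/-!
# The blocks of a structure
-/

set_option autoImplicit false

namespace Pool.Agent.H11.CH

open Classical Pool.Agent.H46.CH
open Pool.Agent.H8.VR (C2)
open Pool.Agent.H8.JS (NTM Cfg Mv IsComp lang num)

theorem pf_B1 : T_B1 := by
  intro J _ M A _ R lab T b hb hR hS
  obtain ⟨hok, hpr, hct⟩ := hS
  have hle : ∀ x, b x ≤ T := fun x => (hb (b x)).1 ⟨x, rfl⟩
  -- the counts
  have h1 : ∀ x, {y | y ≠ x ∧ R 0 x y ∧ R 0 y x ∧ (lab y).2.2 = none}.ncard =
      if (lab x).2.2 = none then 0 else 1 := by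
    intro x
    have h := hct x (fun l' a b => a 0 ∧ b 0 ∧ l'.2.2 = none,
      if (lab x).2.2 = none then 0 else 1, true) (by simp [AM.lc])
    rw [if_pos rfl] at h
    exact h
  have h2 : ∀ x, ((lab x).2.1 = none → {y | y ≠ x ∧ R 0 x y ∧ ¬ R 0 y x}.ncard = 0) ∧
      ((lab x).2.1 ≠ none → 1 ≤ {y | y ≠ x ∧ R 0 x y ∧ ¬ R 0 y x}.ncard) := by
    intro x
    have h := hct x (fun _ a b => a 0 ∧ ¬ b 0, if (lab x).2.1 = none then 0 else 1,
      if (lab x).2.1 = none then true else false) (by simp [AM.lc])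
    refine ⟨fun h0 => ?_, fun h0 => ?_⟩
    · simp only [h0, if_true] at h
      exact h
    · simp only [h0, if_false, Bool.false_eq_true] at h
      exact h
  have h3 : ∀ x, ((lab x).1 = none → {y | y ≠ x ∧ R 0 y x ∧ ¬ R 0 x y}.ncard = 0) ∧
      ((lab x).1 ≠ none → 1 ≤ {y | y ≠ x ∧ R 0 y x ∧ ¬ R 0 x y}.ncard) := by
    intro x
    have h := hct x (fun _ a b => b 0 ∧ ¬ a 0, if (lab x).1 = none then 0 else 1,
      if (lab x).1 = none then true else false) (by simp [AM.lc])
    refine ⟨fun h0 => ?_, fun h0 => ?_⟩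
    · simp only [h0, if_true] at h
      exact h
    · simp only [h0, if_false, Bool.false_eq_true] at h
      exact h
  -- the last block
  have hT : ∀ x, (lab x).2.1 = none ↔ b x = T := by
    intro x
    constructor
    · intro h0
      by_contra hne
      have hlt : b x + 1 ≤ T := by have := hle x; omega
      obtain ⟨y, hy⟩ := (hb (b x + 1)).2 hlt
      have h4 := (h2 x).1 h0
      rw [Set.ncard_eq_zero (Set.toFinite _)] at h4
      have h5 : y ∈ {y | y ≠ x ∧ R 0 x y ∧ ¬ R 0 y x} := by
        refine ⟨?_, (hR x y).2 (by omega), fun h => ?_⟩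
        · rintro rfl
          omega
        · have := (hR y x).1 h
          omega
      rw [h4] at h5
      exact h5
    · intro h0
      by_contra hne
      have h4 := (h2 x).2 hne
      have h5 : {y | y ≠ x ∧ R 0 x y ∧ ¬ R 0 y x}.Nonempty := by
        rw [← Set.ncard_pos (Set.toFinite _)]
        omega
      obtain ⟨y, -, hy1, hy2⟩ := h5
      have e1 := (hR x y).1 hy1
      have e2 := hle y
      exact hy2 ((hR y x).2 (by omega))
  have h0 : ∀ x, (lab x).1 = none ↔ b x = 0 := by
    intro x
    constructor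
    · intro h0
      by_contra hne
      have hlt : b x - 1 ≤ T := by have := hle x; omega
      obtain ⟨y, hy⟩ := (hb (b x - 1)).2 hlt
      have h4 := (h3 x).1 h0
      rw [Set.ncard_eq_zero (Set.toFinite _)] at h4
      have h5 : y ∈ {y | y ≠ x ∧ R 0 y x ∧ ¬ R 0 x y} := by
        refine ⟨?_, (hR y x).2 (by omega), fun h => ?_⟩
        · rintro rfl
          omega
        · have := (hR x y).1 h
          omega
      rw [h4] at h5
      exact h5
    · intro h0
      by_contra hne
      have h4 := (h3 x).2 hne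
      have h5 : {y | y ≠ x ∧ R 0 y x ∧ ¬ R 0 x y}.Nonempty := by
        rw [← Set.ncard_pos (Set.toFinite _)]
        omega
      obtain ⟨y, -, hy1, hy2⟩ := h5
      have e1 := (hR y x).1 hy1
      exact hy2 ((hR x y).2 (by omega))
  -- the same block and the next block
  have hsame : ∀ x y, b x = b y → (lab x).1 = (lab y).1 ∧ (lab x).2.1 = (lab y).2.1 := by
    intro x y hxy
    rcases eq_or_ne x y with rfl | hne
    · exact ⟨rfl, rfl⟩
    · exact (hpr x y hne).1 ((hR x y).2 (by omega)) ((hR y x).2 (by omega))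
  have hnext : ∀ x y, b y = b x + 1 → ∃ i, (lab x).2.1 = some i ∧ (lab y).1 = some i ∧
      ∀ i', (lab y).2.1 = some i' → M.nx i i' := by
    intro x y hxy
    have hne : x ≠ y := by
      rintro rfl
      omega
    refine (hpr x y hne).2.1 ((hR x y).2 (by omega)) ?_
    show ¬ R 0 y x
    intro h
    have := (hR y x).1 h
    omega
  obtain ⟨x₀, hx₀⟩ := (hb 0).2 (Nat.zero_le T)
  obtain ⟨-, i₀, hi₀, hini⟩ := (hok x₀).1 ((h0 x₀).2 hx₀)
  have hTpos : 0 < T := by
    rcases Nat.eq_zero_or_pos T with h | h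
    · have := (hT x₀).2 (by omega)
      rw [hi₀] at this
      cases this
    · exact h
  have he : ∀ t, ∃ i : M.I, t < T → ∀ x, b x = t → (lab x).2.1 = some i := by
    intro t
    by_cases ht : t < T
    · obtain ⟨x, hx⟩ := (hb t).2 ht.le
      have hne : (lab x).2.1 ≠ none := fun h => by
        have := (hT x).1 h
        omega
      obtain ⟨i, hi⟩ := Option.ne_none_iff_exists'.1 hne
      refine ⟨i, fun _ y hy => ?_⟩
      rw [← (hsame x y (by omega)).2, hi]
    · exact ⟨i₀, fun h => absurd h ht⟩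
  choose e he using he
  have E2 : ∀ x, (lab x).2.1 = if b x = T then none else some (e (b x)) := by
    intro x
    split_ifs with h
    · exact (hT x).2 h
    · exact he (b x) (by have := hle x; omega) x rfl
  have E1 : ∀ x, (lab x).1 = if b x = 0 then none else some (e (b x - 1)) := by
    intro x
    split_ifs with h
    · exact (h0 x).2 h
    · obtain ⟨y, hy⟩ := (hb (b x - 1)).2 (by have := hle x; omega)
      obtain ⟨i, hi, hi', -⟩ := hnext y x (by omega)
      have h5 := he (b x - 1) (by have := hle x; omega) y hy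
      rw [hi', ← h5, hi]
  refine ⟨hTpos, e, ?_, ?_, ?_, E1, E2, ?_⟩
  · have := he 0 hTpos x₀ hx₀
    rw [hi₀] at this
    rw [← Option.some_injective _ this]
    exact hini
  · obtain ⟨x, hx⟩ := (hb T).2 le_rfl
    obtain ⟨-, i, hi, hfi⟩ := (hok x).2 ((hT x).2 hx)
    have := E1 x
    rw [if_neg (by omega), hi, hx] at this
    rw [← Option.some_injective _ this]
    exact hfi
  · intro t ht
    obtain ⟨x, hx⟩ := (hb t).2 (by omega)
    obtain ⟨y, hy⟩ := (hb (t + 1)).2 ht.le
    obtain ⟨i, hi, -, hi'⟩ := hnext x y (by omega)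
    have e1 := he t (by omega) x hx
    rw [hi] at e1
    rw [← Option.some_injective _ e1]
    exact hi' _ (he (t + 1) ht y hy)
  · intro t ht
    obtain ⟨x, hx⟩ := (hb t).2 ht
    have h4 := h1 x
    have h5 : {y | y ≠ x ∧ R 0 x y ∧ R 0 y x ∧ (lab y).2.2 = none} =
        {y | y ≠ x ∧ (b y = t ∧ (lab y).2.2 = none)} := by
      ext y
      show (y ≠ x ∧ R 0 x y ∧ R 0 y x ∧ (lab y).2.2 = none) ↔
        (y ≠ x ∧ (b y = t ∧ (lab y).2.2 = none))
      constructor
      · rintro ⟨g1, g2, g3, g4⟩
        have e1 := (hR x y).1 g2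
        have e2 := (hR y x).1 g3
        exact ⟨g1, by omega, g4⟩
      · rintro ⟨g1, g2, g3⟩
        exact ⟨g1, (hR x y).2 (by omega), (hR y x).2 (by omega), g3⟩
    rw [h5] at h4
    by_cases hh : (lab x).2.2 = none
    · rw [if_pos hh, Set.ncard_eq_zero (Set.toFinite _)] at h4
      rw [Set.ncard_eq_one]
      refine ⟨x, ?_⟩
      ext y
      show (b y = t ∧ (lab y).2.2 = none) ↔ y = x
      constructor
      · intro hy
        by_contra hne
        have : y ∈ {y | y ≠ x ∧ (b y = t ∧ (lab y).2.2 = none)} := ⟨hne, hy⟩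
        rw [h4] at this
        exact this
      · rintro rfl
        exact ⟨hx, hh⟩
    · rw [if_neg hh] at h4
      rw [← h4]
      congr 1
      ext y
      show (b y = t ∧ (lab y).2.2 = none) ↔ (y ≠ x ∧ (b y = t ∧ (lab y).2.2 = none))
      constructor
      · intro hy
        refine ⟨?_, hy⟩
        rintro rfl
        exact hh hy.2
      · exact fun hy => hy.2

end Pool.Agent.H11.CH
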