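import Pool.Agent.H46.CH.LT

/-!
# From runs to structures on `Fin n`
-/

set_option autoImplicit false

namespace Pool.Agent.H11.CH

open Classical Pool.Agent.H46.CH
open Pool.Agent.H8.VR (C2)
open Pool.Agent.H8.JS (NTM Cfg Mv IsComp lang num)

theorem pf_CA (hTP : T_TP) (hMT : T_MT) (hCR : T_CR) : T_CA := by
  intro J _ M n hn
  obtain ⟨T, e, v, hr, hs, hn⟩ := hn
  obtain ⟨A, hA, R, lab, hP, hlc, hc⟩ := hCR J M T e v hr
  obtain ⟨R', hR', hloc⟩ := (hMT J M A R lab).2 hlc (by rw [hc, hc, hs])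
  have hcard : Nat.card A = n := by
    have h1 := Set.ncard_add_ncard_compl {x | M.stl (lab x) = false}
    have h2 : {x | M.stl (lab x) = false}ᶜ = {x | M.stl (lab x) = true} := by
      ext x
      simp
    rw [h2, hc, hc] at h1
    rw [← h1, hn]
  have E : A ≃ Fin n := Finite.equivFinOfCardEq hcard
  refine ⟨fun i x y => R' i (E.symm x) (E.symm y), fun x => lab (E.symm x), ?_, ?_⟩
  · refine (hTP M.Lb A (Fin n) M.loc E lab R').1 ?_
    rw [hR']
    exact hP
  · exact (hTP M.Lb A (Fin n) M.loc E lab R').2 hloc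

end Pool.Agent.H11.CH
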