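import Pool.Agent.H46.CH.LT

/-!
# Maps with prescribed fibres
-/

set_option autoImplicit false

namespace Pool.Agent.H11.CH

open Classical Pool.Agent.H46.CH
open Pool.Agent.H8.VR (C2)
open Pool.Agent.H8.JS (NTM Cfg Mv IsComp lang num)

theorem ncard_range_fin {β : Type} {n : ℕ} (g : Fin n → β) (hg : Function.Injective g)
    (s : Set β) (hs : ∀ b, b ∈ s ↔ ∃ a, g a = b) : s.ncard = n := by
  have h : s = g '' Set.univ := by
    ext b
    rw [hs, Set.image_univ]
    rfl
  rw [h, Set.ncard_image_of_injective _ hg, Set.ncard_univ, Nat.card_fin]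

theorem pf_EX : T_EX := by
  intro J _ v v' A c hv
  have he : ∀ j, Nonempty (Fin (v' j) ≃ Fin (c j) ⊕ (Σ k : J, Fin (v k) × Fin (A j k))) := by
    intro j
    refine ⟨Fintype.equivOfCardEq ?_⟩
    rw [Fintype.card_fin, Fintype.card_sum, Fintype.card_fin, Fintype.card_sigma, hv j]
    congr 1
    refine Finset.sum_congr rfl fun k _ => ?_
    rw [Fintype.card_prod, Fintype.card_fin, Fintype.card_fin, mul_comm]
  have e := fun j => (he j).some
  refine ⟨fun p => match e p.1 p.2 with
    | .inl _ => none
    | .inr y => some ⟨y.1, y.2.1⟩, ?_⟩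
  intro x j
  cases x with
  | none =>
    refine ncard_range_fin (fun a : Fin (c j) => (e j).symm (.inl a))
      (fun a b h => Sum.inl_injective ((e j).symm.injective h)) _ fun i => ?_
    rw [Set.mem_ofPred_eq]
    constructor
    · intro h
      dsimp only at h
      rcases hy : e j i with a | y
      · exact ⟨a, by rw [← hy, Equiv.symm_apply_apply]⟩
      · rw [hy] at h
        cases h
    · rintro ⟨a, rfl⟩
      dsimp only
      rw [Equiv.apply_symm_apply]
  | some k =>
    obtain ⟨k, i'⟩ := k
    refine ncard_range_fin (fun a : Fin (A j k) => (e j).symm (.inr ⟨k, (i', a)⟩)) ?_ _ fun i => ?_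
    · intro a b h
      have h1 := Sum.inr_injective ((e j).symm.injective h)
      have h2 : (i', a) = (i', b) := eq_of_heq (Sigma.mk.inj_iff.1 h1).2
      exact congrArg Prod.snd h2
    · rw [Set.mem_ofPred_eq]
      constructor
      · intro h
        dsimp only at h
        rcases hy : e j i with a | ⟨k', i'', a⟩
        · rw [hy] at h
          cases h
        · rw [hy] at h
          have h1 : (⟨k', i''⟩ : Σ k, Fin (v k)) = ⟨k, i'⟩ := Option.some_injective _ h
          obtain ⟨rfl, h2⟩ := Sigma.mk.inj_iff.1 h1
          have h3 := eq_of_heq h2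
          subst h3
          exact ⟨a, by rw [← hy, Equiv.symm_apply_apply]⟩
      · rintro ⟨a, rfl⟩
        dsimp only
        rw [Equiv.apply_symm_apply]

end Pool.Agent.H11.CH
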