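import Pool.Agent.H46.CH.UT

/-!
# Closure properties of the relations which are recognised by automata on digits
-/

set_option autoImplicit false

namespace Pool.Agent.H11.CH

open Classical Pool.Agent.H8.VR Pool.Agent.H69.VR Pool.Agent.H46.CH
open Pool.Agent.H8.JS (NTM Cfg Mv lang num)

theorem val_nil {ι : Type} (j : ι) : val ([] : List (ι → Bool)) j = 0 := rfl

theorem val_concat {ι : Type} (w : List (ι → Bool)) (b : ι → Bool) (j : ι) :
    val (w ++ [b]) j = 2 * val w j + (b j).toNat := by
  unfold val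
  rw [List.foldl_append]
  rfl

theorem foldl_prod {α β γ : Type} (f : α → γ → α) (g : β → γ → β) (w : List γ) (a : α) (b : β) :
    w.foldl (fun (s : α × β) c => (f s.1 c, g s.2 c)) (a, b) = (w.foldl f a, w.foldl g b) := by
  induction w generalizing a b with
  | nil => rfl
  | cons c w ih => exact ih (f a c) (g b c)

theorem pf_RG : T_RG := by
  refine ⟨?_, ?_, ?_, ?_, ?_⟩
  · intro ι p
    exact ⟨⟨Unit, inferInstance, (), fun _ _ => (), fun _ => p⟩, fun w => Iff.rfl⟩
  · rintro ι P P' ⟨M, hM⟩ ⟨M', hM'⟩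
    have := M.fin
    have := M'.fin
    refine ⟨⟨M.σ × M'.σ, inferInstance, (M.ini, M'.ini),
      fun s c => (M.step s.1 c, M'.step s.2 c), fun s => M.acc s.1 ∧ M'.acc s.2⟩, fun w => ?_⟩
    show (M.acc (w.foldl (fun (s : M.σ × M'.σ) c => (M.step s.1 c, M'.step s.2 c))
      (M.ini, M'.ini)).1 ∧ M'.acc (w.foldl (fun (s : M.σ × M'.σ) c =>
        (M.step s.1 c, M'.step s.2 c)) (M.ini, M'.ini)).2) ↔ _
    rw [foldl_prod]
    exact and_congr (hM w) (hM' w)
  · rintro ι P ⟨M, hM⟩
    exact ⟨⟨M.σ, M.fin, M.ini, M.step, fun s => ¬ M.acc s⟩, fun w => not_congr (hM w)⟩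
  · rintro ι κ f P ⟨M, hM⟩
    refine ⟨⟨M.σ, M.fin, M.ini, fun s b => M.step s (fun i => b (f i)), M.acc⟩, fun w => ?_⟩
    have h1 : w.foldl (fun s b => M.step s (fun i => b (f i))) M.ini =
        (w.map (fun (b : κ → Bool) (i : ι) => b (f i))).foldl M.step M.ini := by
      rw [List.foldl_map]
    have h2 : val (w.map (fun (b : κ → Bool) (i : ι) => b (f i))) = fun i => val w (f i) := by
      funext i
      unfold val
      rw [List.foldl_map]
    show M.acc (w.foldl (fun s b => M.step s (fun i => b (f i))) M.ini) ↔ P fun i => val w (f i)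
    rw [h1, ← h2]
    exact hM _
  · intro ι C _ _ K a u
    refine ⟨⟨C, inferInstance, K.cp 0,
      fun s b => K.ad (K.ad s s) (K.cp (∑ j, a j * (b j).toNat)), fun s => s = u⟩, fun w => ?_⟩
    have key : w.foldl (fun s b => K.ad (K.ad s s) (K.cp (∑ j, a j * (b j).toNat))) (K.cp 0) =
        K.cp (∑ j, a j * val w j) := by
      induction w using List.reverseRecOn with
      | nil => simp [val_nil]
      | append_singleton w b ih =>
        rw [List.foldl_append, ih]
        show K.ad (K.ad (K.cp _) (K.cp _)) (K.cp _) = _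
        rw [← K.cp_add, ← K.cp_add, ← Finset.sum_add_distrib, ← Finset.sum_add_distrib]
        congr 1
        refine Finset.sum_congr rfl fun j _ => ?_
        rw [val_concat]
        ring
    show (w.foldl (fun s b => K.ad (K.ad s s) (K.cp (∑ j, a j * (b j).toNat))) (K.cp 0) = u) ↔ _
    rw [key]

end Pool.Agent.H11.CH
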