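import Pool.Agent.H72.CH.Targets2
import Pool.Agent.H57.CN.Basics

/-!
# Chains of equivalence relations: row STP
-/

set_option autoImplicit false

namespace Pool.Agent.H11.CH

open Pool.Agent.H68.BP Pool.Agent.H58.SF Pool.Agent.H53.NR
open Pool.Agent.H57.AR (tp ty Ty)
open Pool.Agent.H57.EQ (Cx)
open Pool.Agent.H57.LH (Hmg tp_iff)
open Pool.Agent.H44.KR (HB Tyi TpOn)
open Pool.Agent.H44.FB (CptC EmbC)
open Pool.Agent.H57.CN (tp_comp lv_tp)
open Pool.Agent.H72.CH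
open Function

section

variable {V : Type} {ρ σ : Sig} {𝔹 : Str ρ V} {m : ℕ} {lv : V → V → ℕ} {𝔸 : Str σ V}

/-- the third entry -/
theorem ext3 (hm : Hmg 𝔹) {p q r s : V} (t : V) (h : tp 𝔹 ![p, q] = tp 𝔹 ![r, s]) :
    ∃ u, tp 𝔹 ![p, q, u] = tp 𝔹 ![r, s, t] := by
  obtain ⟨x', hx', hx''⟩ := hm (Fin 3) {a | a ≠ 2} ![r, s, t] ![p, q, t] (by
    have h1 := tp_iff.1 h
    have hr : ∀ a : Fin 3, a ≠ 2 → (![r, s, t] : Fin 3 → V) a =
        (![r, s] : Fin 2 → V) (if a = 0 then 0 else 1) := by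
      intro a ha
      fin_cases a
      · rfl
      · rfl
      · exact absurd rfl ha
    have hp : ∀ a : Fin 3, a ≠ 2 → (![p, q, t] : Fin 3 → V) a =
        (![p, q] : Fin 2 → V) (if a = 0 then 0 else 1) := by
      intro a ha
      fin_cases a
      · rfl
      · rfl
      · exact absurd rfl ha
    constructor
    · intro a ha b hb
      rw [hr a ha, hr b hb, hp a ha, hp b hb]
      exact (h1.1 _ _).symm
    · intro l z hz
      have h2 : (fun i => (![r, s, t] : Fin 3 → V) (z i)) =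
          fun i => (![r, s] : Fin 2 → V) (if z i = 0 then 0 else 1) :=
        funext fun i => hr (z i) (hz i)
      have h3 : (fun i => (![p, q, t] : Fin 3 → V) (z i)) =
          fun i => (![p, q] : Fin 2 → V) (if z i = 0 then 0 else 1) :=
        funext fun i => hp (z i) (hz i)
      rw [h2, h3]
      exact (h1.2 l _).symm)
  refine ⟨x' 2, ?_⟩
  rw [← hx']
  congr 1
  funext a
  fin_cases a
  · exact (hx'' 0 (by simp)).symm
  · exact (hx'' 1 (by simp)).symm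
  · rfl

theorem sub12 {x y z x' y' z' : V} (h : tp 𝔹 ![x, y, z] = tp 𝔹 ![x', y', z']) :
    tp 𝔹 ![y, z] = tp 𝔹 ![y', z'] := by
  have h1 := tp_comp h (![1, 2] : Fin 2 → Fin 3)
  have h2 : ∀ u v w : V, (fun a => (![u, v, w] : Fin 3 → V) ((![1, 2] : Fin 2 → Fin 3) a)) =
      ![v, w] := by
    intro u v w
    funext a
    fin_cases a <;> rfl
  rwa [h2, h2] at h1

theorem sub01 {x y z x' y' z' : V} (h : tp 𝔹 ![x, y, z] = tp 𝔹 ![x', y', z']) :
    tp 𝔹 ![x, y] = tp 𝔹 ![x', y'] := by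
  have h1 := tp_comp h (![0, 1] : Fin 2 → Fin 3)
  have h2 : ∀ u v w : V, (fun a => (![u, v, w] : Fin 3 → V) ((![0, 1] : Fin 2 → Fin 3) a)) =
      ![u, v] := by
    intro u v w
    funext a
    fin_cases a <;> rfl
  rwa [h2, h2] at h1

theorem lv2 (hV : HV 𝔹 m lv) {x y x' y' : V} (h : tp 𝔹 ![x, y] = tp 𝔹 ![x', y']) :
    lv x y = lv x' y' := lv_tp hV h 0 1

theorem rgd_symm {x y : V} (h : Rgd 𝔸 x y) : Rgd 𝔸 y x := fun g hg => by
  obtain ⟨g', hg', h1, h2⟩ := h g hg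
  exact ⟨g', hg', h2, h1⟩

end

theorem pf_STP : Pool.Agent.H72.CH.T_STP := by
  classical
  intro V ρ σ 𝔹 m lv 𝔸 hRGI hV ht hE hN i j a b c a' c' d hK hS P _ _ f hf Z x y v x' y'
    h1 h2 h3 h4 h5
  have hsym := hV.lev.pl.sym
  have hult := hV.lev.pl.ult
  -- the choice of u
  have hu : ∀ p, ∃ u, (p ∈ Z → u = v p) ∧
      (p ∉ Z → tp 𝔹 ![x p, v p, u] = tp 𝔹 ![a', c', d]) := by
    intro p
    by_cases hp : p ∈ Z
    · exact ⟨v p, fun _ => rfl, fun h => absurd hp h⟩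
    · obtain ⟨u, hu⟩ := ext3 hV.hmg d (h2 p hp).2
      exact ⟨u, fun h => absurd h hp, fun _ => hu⟩
  choose u hu1 hu2 using hu
  have hz : ∀ p, ∃ z, (p ∉ Z → z = v p) ∧
      (p ∈ Z → tp 𝔹 ![x' p, v p, z] = tp 𝔹 ![a', c', d]) := by
    intro p
    by_cases hp : p ∈ Z
    · obtain ⟨u, hu⟩ := ext3 hV.hmg d (h4 p hp).1
      exact ⟨u, fun h => absurd hp h, fun _ => hu⟩
    · exact ⟨v p, fun _ => rfl, fun h => absurd h hp⟩
  choose z hz1 hz2 using hz
  have hi : i - 1 < m := by have := hK.im; have := hK.ab; omega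
  have hj : j - 1 < m := by have := hK.jm; have := hK.cd; omega
  have e1 : j ≤ lv (f v) (f u) := by
    rcases hS P f hf Z x y v u (fun p hp => ⟨h1 p hp, hu1 p hp⟩)
      (fun p hp => ⟨(h2 p hp).1, hu2 p hp⟩) with h | h
    · omega
    · exact h
  have e2 : lv (f u) (f z) = j - 1 := by
    refine hN P f hf (j - 1) hj u z fun p => ?_
    have hcd := hK.cd
    by_cases hp : p ∈ Z
    · rw [hu1 p hp]
      have h6 := sub12 (hz2 p hp)
      exact ⟨by rw [lv2 hV h6]; omega, hRGI V ρ σ 𝔹 𝔸 ht hE c' d (v p) (z p) h6.symm hK.rcd⟩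
    · rw [hz1 p hp]
      have h6 := sub12 (hu2 p hp)
      exact ⟨by rw [hsym, lv2 hV h6]; omega,
        rgd_symm (hRGI V ρ σ 𝔹 𝔸 ht hE c' d (v p) (u p) h6.symm hK.rcd)⟩
  have e3 : ¬ j ≤ lv (f v) (f z) := by
    intro h
    have h6 := hult (f u) (f v) (f z)
    rw [hsym (f u) (f v)] at h6
    have h7 := hK.cd
    have h8 : j ≤ min (lv (f v) (f u)) (lv (f v) (f z)) := le_min e1 h
    omega
  have e4 : i ≤ lv (f x') (f y') := by
    rcases hS P f hf Zᶜ x' y' v z (fun p hp => ⟨h5 p hp, hz1 p hp⟩)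
      (fun p hp => by
        have hp' : p ∈ Z := by
          by_contra h
          exact hp h
        exact ⟨(h4 p hp').2, hz2 p hp'⟩) with h | h
    · exact h
    · exact absurd h e3
  refine ⟨?_, e4⟩
  intro y'' h6 h7
  have hab := hK.ab
  have e5 : lv (f y') (f y'') = i - 1 := by
    refine hN P f hf (i - 1) hi y' y'' fun p => ?_
    by_cases hp : p ∈ Z
    · rw [(h4 p hp).2]
      have h8 := h6 p hp
      exact ⟨by omega, h8.2⟩
    · rw [h7 p hp]
      have h8 := sub01 (h5 p hp)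
      exact ⟨by rw [hsym, lv2 hV h8]; omega,
        rgd_symm (hRGI V ρ σ 𝔹 𝔸 ht hE a b (x' p) (y' p) h8.symm hK.rab)⟩
  by_contra h8
  push Not at h8
  have h9 := hult (f y') (f x') (f y'')
  rw [hsym (f y') (f x')] at h9
  have h10 : i ≤ min (lv (f x') (f y')) (lv (f x') (f y'')) := le_min e4 h8
  omega

end Pool.Agent.H11.CH
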